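import Pool.Agent.TH848.KM.K6v166
import Pool.Agent.TH848.KM.K6v231
import Pool.Agent.TH848.KM.K6v256
import Pool.Agent.TH848.KM.K6v261
import Pool.Agent.TH848.KM.K6v286
import Pool.Agent.TH848.KM.K6v321
import Pool.Agent.TH848.KM.K6v346
import Pool.Agent.TH848.KM.K6v471
import Pool.Agent.TH848.KM.K6v501
import Pool.Agent.TH848.KM.K6v561
import Pool.Agent.TH848.KM.K6v591
import Pool.Agent.TH848.KM.K6v616
import Pool.Agent.TH848.KM.K6v651
import Pool.Agent.TH848.Rec.S796
import Pool.Agent.TH848.KM.K7v127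
import Pool.Agent.TH848.KM.K8v225
import Pool.Agent.TH848.Rec.Eight
import Pool.Agent.TH848.Rec.Seven

/-!
New Steiner systems `S(n,q,2)` (balanced incomplete block designs with index one) with `q = 6, 7, 8`,
found by computer search with prescribed groups of automorphisms, and by filling an
incomplete transversal design with new incomplete designs found in the same way.
-/

set_option autoImplicit false

namespace Pool.Agent.Results.MP_409a13_co.BlockSixMore

open Pool.Agent.H816R2.KM2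

theorem toSteiner {m k : ℕ} (h : ∃ 𝓑 : Set (Finset (Fin m)), IsS2 (Fin m) k 𝓑) :
    ∃ B : Finset (Finset (Fin m)), (∀ b ∈ B, b.card = k) ∧
      ∀ T : Finset (Fin m), T.card = 2 → ∃! b, b ∈ B ∧ T ⊆ b := by
  classical
  obtain ⟨𝓑, h1, h2⟩ := h
  refine ⟨Finset.univ.filter (fun B => B ∈ 𝓑), ?_, ?_⟩
  · intro B hB
    exact h1 B (Finset.mem_filter.1 hB).2
  · intro T hT
    obtain ⟨a, b, hab, rfl⟩ := Finset.card_eq_two.1 hT
    obtain ⟨B, ⟨hB, ha, hb⟩, hu⟩ := h2 a b hab
    have hsub : ∀ C : Finset (Fin m), ({a, b} : Finset (Fin m)) ⊆ C ↔ a ∈ C ∧ b ∈ C := by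
      intro C
      rw [Finset.insert_subset_iff, Finset.singleton_subset_iff]
    refine ⟨B, ⟨Finset.mem_filter.2 ⟨Finset.mem_univ _, hB⟩, (hsub B).2 ⟨ha, hb⟩⟩, ?_⟩
    rintro C ⟨hC, hC'⟩
    obtain ⟨ha', hb'⟩ := (hsub C).1 hC'
    exact hu C ⟨(Finset.mem_filter.1 hC).2, ha', hb'⟩

/-- For each pair `(n, q)` in the list there is a family of `q`-subsets of an `n`-set such that
every `2`-subset lies in exactly one member. -/
theorem result : ∀ p ∈ (
    [(166, 6), (231, 6), (256, 6), (261, 6), (286, 6), (321, 6), (346, 6), (471, 6), (501, 6),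
    (561, 6), (591, 6), (616, 6), (651, 6), (796, 6), (127, 7), (2479, 7), (225, 8), (1793, 8),
    (1961, 8)] : List (ℕ × ℕ)),
    ∃ B : Finset (Finset (Fin p.1)), (∀ b ∈ B, b.card = p.2) ∧
      ∀ T : Finset (Fin p.1), T.card = 2 → ∃! b, b ∈ B ∧ T ⊆ b := by
  intro p hp
  simp only [List.mem_cons, List.not_mem_nil, or_false] at hp
  rcases hp with rfl | rfl | rfl | rfl | rfl | rfl | rfl | rfl | rfl | rfl | rfl | rfl | rfl |
      rfl | rfl | rfl | rfl | rfl | rfl
  · exact toSteiner Pool.Agent.TH848.KM.ex166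
  · exact toSteiner Pool.Agent.TH848.KM.ex231
  · exact toSteiner Pool.Agent.TH848.KM.ex256
  · exact toSteiner Pool.Agent.TH848.KM.ex261
  · exact toSteiner Pool.Agent.TH848.KM.ex286
  · exact toSteiner Pool.Agent.TH848.KM.ex321
  · exact toSteiner Pool.Agent.TH848.KM.ex346
  · exact toSteiner Pool.Agent.TH848.KM.ex471
  · exact toSteiner Pool.Agent.TH848.KM.ex501
  · exact toSteiner Pool.Agent.TH848.KM.ex561
  · exact toSteiner Pool.Agent.TH848.KM.ex591
  · exact toSteiner Pool.Agent.TH848.KM.ex616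
  · exact toSteiner Pool.Agent.TH848.KM.ex651
  · exact toSteiner Pool.Agent.TH848.Rec.s796
  · exact toSteiner Pool.Agent.TH848.KM.ex127
  · exact toSteiner Pool.Agent.TH848.Rec.s2479
  · exact toSteiner Pool.Agent.TH848.KM.ex225
  · exact toSteiner Pool.Agent.TH848.Rec.s1793
  · exact toSteiner Pool.Agent.TH848.Rec.s1961

end Pool.Agent.Results.MP_409a13_co.BlockSixMore
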