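import Pool.Agent.TH721.Steiner5.Cases
import Pool.Agent.H117R2.Steiner5.V11
import Pool.Agent.H117R2.Steiner5.V23
import Pool.Agent.H117R2.Steiner5.V47
import Pool.Agent.H117R2.Steiner5.V71
import Pool.Agent.H117R2.Steiner5.V83
import Pool.Agent.H117R2.Steiner5.V107
import Pool.Agent.H117R2.Steiner5.V131
import Pool.Agent.H117R2.Steiner5.V167
import Pool.Agent.H117R2.Steiner5.V191
import Pool.Agent.H117R2.Steiner5.V227
import Pool.Agent.H117R2.Steiner5.V251
import Pool.Agent.H117R2.Steiner5.V263
import Pool.Agent.H117R2.Steiner5.V311
import Pool.Agent.TH721.Steiner5.V347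

/-!
New Steiner systems `S(5,6,348)` and `S(4,5,347)`, that is `S(348,6,5)` and `S(347,5,4)` in the
order of parameters of the problem. With the systems known before they show that for all primes
`p < 383` with `p % 4 = 3` and `5 < p` the divisibility condition is sufficient for `S(p+1,6,5)`
and for `S(p,5,4)`. The new design is invariant under `PSL(2,347)`; it was found by computer and is
checked here in the kernel.
-/

namespace Pool.Agent.Results.MP_409a13_co.LargerStrengthFive

open Pool.Agent.H117R2.Steiner5

theorem exists_list :
    ∀ p ∈ ([11, 23, 47, 71, 83, 107, 131, 167, 191, 227, 251, 263, 311, 347] : List ℕ),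
    ∃ 𝓑 : Finset (Finset (Fin (p + 1))), IsSteiner (p + 1) 6 5 𝓑 := by
  intro p hp
  simp only [List.mem_cons, List.not_mem_nil, or_false] at hp
  rcases hp with rfl | rfl | rfl | rfl | rfl | rfl | rfl | rfl | rfl | rfl | rfl | rfl | rfl | rfl
  · exact D11.steiner
  · exact D23.steiner
  · exact D47.steiner
  · exact D71.steiner
  · exact D83.steiner
  · exact D107.steiner
  · exact D131.steiner
  · exact D167.steiner
  · exact D191.steiner
  · exact D227.steiner
  · exact D251.steiner
  · exact D263.steiner
  · exact D311.steiner
  · exact Pool.Agent.TH721.Steiner5.D347.steiner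

/-- There are Steiner systems with blocks of size `6` and strength `5` on `348` points, and with
blocks of size `5` and strength `4` on `347` points. For all primes `p < 383` of the form `4 k + 3`
with `5 < p`, a Steiner system with blocks of size `6` and strength `5` on `p + 1` points (blocks of
size `5` and strength `4` on `p` points) exists if and only if the divisibility condition holds. -/
theorem result :
    ((∃ 𝓑 : Finset (Finset (Fin 348)), IsSteiner 348 6 5 𝓑) ∧
      ∃ 𝓒 : Finset (Finset (Fin 347)), IsSteiner 347 5 4 𝓒) ∧
    ∀ p : ℕ, p.Prime → p % 4 = 3 → 5 < p → p < 383 →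
      ((∃ 𝓑 : Finset (Finset (Fin (p + 1))), IsSteiner (p + 1) 6 5 𝓑) ↔
        Divisibility (p + 1) 6 5) ∧
      ((∃ 𝓒 : Finset (Finset (Fin p)), IsSteiner p 5 4 𝓒) ↔ Divisibility p 5 4) := by
  refine ⟨?_, ?_⟩
  · have h := Pool.Agent.TH721.Steiner5.D347.steiner
    exact ⟨h, derived h⟩
  · intro p hp h4 h5 hb
    refine ⟨⟨fun h => div_of_steiner (by norm_num) (by omega) h, fun h => ?_⟩,
      ⟨fun h => div_of_steiner (by norm_num) (by omega) h, fun h => ?_⟩⟩
    · refine exists_list p (Pool.Agent.TH721.Steiner5.p_cases_383 hp h4 h5 hb ?_ ?_)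
      · have := h 3 (by norm_num)
        simpa [show p + 1 - 3 = p - 2 by omega, Nat.choose] using this
      · have := h 1 (by norm_num)
        simpa [Nat.choose] using this
    · refine derived (exists_list p (Pool.Agent.TH721.Steiner5.p_cases_383 hp h4 h5 hb ?_ ?_))
      · have := h 2 (by norm_num)
        simpa [Nat.choose] using this
      · have := h 0 (by norm_num)
        simpa [Nat.choose] using this

end Pool.Agent.Results.MP_409a13_co.LargerStrengthFive
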