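import Pool.Agent.TH523.T2.V1975
import Pool.Agent.TH688.T2.V337
import Pool.Agent.TH688.T2.V3241
import Pool.Agent.TH688.T2.V5473
import Pool.Agent.TH887.ST.V785
import Pool.Agent.TH983.ST.V3321
import Pool.Agent.TH739.SN.Orders9

/-!
New Steiner systems of strength two `S(n,q,2)`: for
`(n,q) = (1975,7), (225,8), (337,8), (785,8), (289,9), (1449,9), (1809,9), (3241,9), (3321,9),
(5473,9)` from difference families, and for `(n,q) = (1793,8), (1961,8)` and `q = 9`,
`n = 4897, 5401, 6049, 12529, 13185, 13753, 13833, 13969, 14473, 15049, 15057`, from Wilson's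
closure theorem for truncated transversal designs (14473: for the system of order 1809) and new
orders.
-/

set_option autoImplicit false

namespace Pool.Agent.Results.MP_409a13_co.MoreTwoDesigns

open Pool.Agent.TH739.SN

/-- For each pair `(n,q)` of the list there is a family of `q`-subsets of a set with `n` elements
such that every `2`-subset lies in exactly one member. -/
theorem result : ∀ p ∈ ([(1975, 7), (225, 8), (337, 8), (785, 8), (1793, 8), (1961, 8), (289, 9),
      (1449, 9), (1809, 9), (3241, 9), (3321, 9), (4897, 9), (5401, 9), (5473, 9), (6049, 9),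
      (12529, 9), (13185, 9), (13753, 9), (13833, 9), (13969, 9), (14473, 9), (15049, 9),
      (15057, 9)] : List (ℕ × ℕ)),
    ∃ B : Finset (Finset (Fin p.1)), (∀ b ∈ B, b.card = p.2) ∧
      ∀ T : Finset (Fin p.1), T.card = 2 → ∃! b, b ∈ B ∧ T ⊆ b := by
  intro p hp
  simp only [List.mem_cons, List.not_mem_nil, or_false] at hp
  rcases hp with rfl | rfl | rfl | rfl | rfl | rfl | rfl | rfl | rfl | rfl | rfl | rfl | rfl | rfl |
    rfl | rfl | rfl | rfl | rfl | rfl | rfl | rfl | rfl
  · exact toSystem Pool.Agent.TH523.T2.ex1975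
  · exact sys rfl rfl ok7_32
  · exact toSystem Pool.Agent.TH688.T2.ex337
  · exact toSystem Pool.Agent.TH887.ST.ex785
  · exact sys rfl rfl ok7_256
  · exact sys rfl rfl ok7_280
  · exact sys rfl rfl ok36
  · exact sys rfl rfl ok181
  · exact toSystem Pool.Agent.TH983.ST.s1809
  · exact toSystem Pool.Agent.TH688.T2.ex3241
  · exact toSystem Pool.Agent.TH983.ST.s3321
  · exact sys rfl rfl ok612
  · exact sys rfl rfl ok675
  · exact toSystem Pool.Agent.TH688.T2.ex5473
  · exact sys rfl rfl ok756
  · exact sys rfl rfl ok1566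
  · exact sys rfl rfl ok1648
  · exact sys rfl rfl ok1719
  · exact sys rfl rfl ok1729
  · exact sys rfl rfl ok1746
  · exact sys rfl rfl ok1809
  · exact sys rfl rfl ok1881
  · exact sys rfl rfl ok1882

end Pool.Agent.Results.MP_409a13_co.MoreTwoDesigns
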