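import Pool.Agent.H367R3.S35.General
import Pool.Agent.H367R3.S35.D302
import Pool.Agent.TH523.S35.D317
import Pool.Agent.TH523.S35.D326
import Pool.Agent.TH523.S35.D362
import Pool.Agent.TH523.S35.D386

/-!
Steiner systems `S(3,5,v)`, that is `S(v,5,3)` in the order of parameters of the problem: the new
orders `317`, `326`, `362`, `386` (cyclic, with multipliers), and the multiplicative monoid
generated by the known and the new values of `v - 1`.
-/

set_option autoImplicit false

namespace Pool.Agent.Results.MP_409a13_co.Strength3NewOrders

open Pool.Agent.H367R3.S35P

/-- For every `u` in the multiplicative monoid generated by the listed numbers there is a family of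
`5`-subsets of a set with `u + 1` elements such that every `3`-subset lies in exactly one member. -/
theorem result : ∀ u ∈ Submonoid.closure
      ({4, 25, 124, 136, 145, 196, 205, 301, 316, 325, 361, 385, 3124} : Set ℕ),
    ∃ B : Finset (Finset (Fin (u + 1))), (∀ b ∈ B, b.card = 5) ∧
      ∀ T : Finset (Fin (u + 1)), T.card = 3 → ∃! b, b ∈ B ∧ T ⊆ b := by
  intro u hu
  induction hu using Submonoid.closure_induction with
  | mem x hx =>
    simp only [Set.mem_insert_iff, Set.mem_singleton_iff] at hx
    rcases hx with rfl | rfl | rfl | rfl | rfl | rfl | rfl | rfl | rfl | rfl | rfl | rfl | rfl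
    · exact toSteiner good4.1
    · exact toSteiner good25.1
    · exact toSteiner good124.1
    · exact toSteiner good136.1
    · exact toSteiner good145.1
    · exact toSteiner good196.1
    · exact toSteiner good205.1
    · exact toSteiner Pool.Agent.H367R3.S35L.ex302
    · exact toSteiner Pool.Agent.TH523.S35.ex317
    · exact toSteiner Pool.Agent.TH523.S35.ex326
    · exact toSteiner Pool.Agent.TH523.S35.ex362
    · exact toSteiner Pool.Agent.TH523.S35.ex386
    · exact toSteiner good3124.1
  | one => exact toSteiner good_one.1
  | mul x y _ _ hx hy => exact product hx hy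

end Pool.Agent.Results.MP_409a13_co.Strength3NewOrders
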